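import Mathlib
import Pool.Agent.Helper57.DS.Final

set_option autoImplicit false

namespace Pool.Agent.Results.MP_2d6ea7_co.ConstantLoss

/-- Every finite set of reals has a dissociated subset whose size is at least `log₂ |A|` minus an
absolute constant. `AddDissociated` is Mathlib's notion: distinct finite subsets have distinct
sums. -/
theorem result :
    ∀ A : Finset ℝ, ∃ B ⊆ A, A.card ≤ 2689 * 2 ^ B.card ∧ Nat.log 2 A.card ≤ B.card + 11 ∧
      AddDissociated (B : Set ℝ) := by
  intro A
  obtain ⟨B, hB, hc, hd⟩ := Pool.Agent.Helper57.DS.real_const A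
  refine ⟨B, hB, hc, ?_, hd⟩
  have h1 : A.card < 2 ^ (B.card + 12) := by
    have h2 : 0 < 2 ^ B.card := by positivity
    have h3 : 2 ^ (B.card + 12) = 4096 * 2 ^ B.card := by rw [pow_add]; ring
    rw [h3]
    omega
  have := Nat.log_lt_of_lt_pow' (by omega) h1
  omega

end Pool.Agent.Results.MP_2d6ea7_co.ConstantLoss
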