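import Mathlib
import Pool.Agent.Helper82.FC.Tame

set_option autoImplicit false

namespace Pool.Agent.Results.MP_2d6ea7_co.LocalGlobal

open Pool.Agent.Helper82.FC

/-- The loss `log₂ |A| - max |B|` of a finite set of reals is at most the largest loss of one of
its classes (elements whose ratio is a quotient of odd integers). `AddDissociated` is Mathlib's
notion: distinct finite subsets have distinct sums. -/
theorem result (A : Finset ℝ) (ℓ : ℕ)
    (h : A.card < 64 ∨ ∀ a ∈ A, a ≠ 0 → TameClass A a ℓ) :
    ∃ B ⊆ A, Nat.log 2 A.card ≤ B.card + ℓ ∧ AddDissociated (B : Set ℝ) :=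
  tame_main A ℓ h

end Pool.Agent.Results.MP_2d6ea7_co.LocalGlobal
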