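import Mathlib
import Pool.Agent.Helper8.Diss.Main

set_option autoImplicit false

namespace Pool.Agent.Results.MP_2d6ea7_co.LogTwoAsymp

/-- Dissociated subsets of size `log₂ n - log₂ log₂ n + 1`, and the full conjectured bound for
`n < 16`. `AddDissociated` is Mathlib's notion: distinct finite subsets have distinct sums. -/
theorem result :
    (∀ (A : Finset ℝ) (r : ℕ), Nat.log 2 A.card < 2 ^ (r + 2) + r →
      ∃ B ⊆ A, Nat.log 2 A.card ≤ B.card + r ∧ AddDissociated (B : Set ℝ)) ∧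
    (∀ A : Finset ℝ, A.card < 16 →
      ∃ B ⊆ A, Nat.log 2 A.card ≤ B.card ∧ AddDissociated (B : Set ℝ)) ∧
    (∀ A : Finset ℝ, 4 ≤ A.card →
      ∃ B ⊆ A, Nat.log 2 A.card + 1 ≤ B.card + Nat.log 2 (Nat.log 2 A.card) ∧
        AddDissociated (B : Set ℝ)) ∧
    (∀ δ : ℝ, 0 < δ → ∃ N : ℕ, ∀ A : Finset ℝ, N ≤ A.card →
      ∃ B ⊆ A, (1 - δ) * Real.logb 2 A.card ≤ B.card ∧ AddDissociated (B : Set ℝ)) := by
  have h3 : ∀ A : Finset ℝ, 4 ≤ A.card →
      ∃ B ⊆ A, Nat.log 2 A.card + 1 ≤ B.card + Nat.log 2 (Nat.log 2 A.card) ∧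
        AddDissociated (B : Set ℝ) := by
    intro A hA
    have hk : 2 ≤ Nat.log 2 A.card := by
      rw [Nat.le_log_iff_pow_le (by norm_num) (by omega)]
      exact hA
    have hl : 1 ≤ Nat.log 2 (Nat.log 2 A.card) := by
      rw [Nat.le_log_iff_pow_le (by norm_num) (by omega)]
      omega
    obtain ⟨r, hr⟩ : ∃ r, Nat.log 2 (Nat.log 2 A.card) = r + 1 :=
      ⟨Nat.log 2 (Nat.log 2 A.card) - 1, by omega⟩
    have hlt : Nat.log 2 A.card < 2 ^ (r + 2) := by
      have := Nat.lt_pow_succ_log_self (b := 2) (by norm_num) (Nat.log 2 A.card)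
      rw [hr] at this
      exact this
    obtain ⟨B, hB, hBc, hBd⟩ := Pool.Agent.Helper8.Diss.main A r (by omega)
    exact ⟨B, hB, by omega, hBd⟩
  refine ⟨Pool.Agent.Helper8.Diss.main, ?_, h3, ?_⟩
  · intro A hA
    have hk : Nat.log 2 A.card < 4 := Nat.log_lt_of_lt_pow' (by norm_num) (by omega)
    obtain ⟨B, hB, hBc, hBd⟩ := Pool.Agent.Helper8.Diss.main A 0 (by norm_num; omega)
    exact ⟨B, hB, by omega, hBd⟩
  · intro δ hδ
    -- `logb 2 L ≤ δ L` for large `L`
    have hlog2 : 0 < Real.log 2 := Real.log_pos (by norm_num)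
    have hev : ∀ᶠ L : ℝ in Filter.atTop, Real.logb 2 L ≤ δ * L := by
      have h1 := Real.isLittleO_log_id_atTop.bound (c := δ * Real.log 2) (by positivity)
      filter_upwards [h1, Filter.eventually_ge_atTop 1] with L hL hL1
      have h2 : 0 ≤ Real.log L := Real.log_nonneg hL1
      rw [Real.norm_of_nonneg h2, id, Real.norm_of_nonneg (by linarith)] at hL
      rw [Real.logb, div_le_iff₀ hlog2]
      linarith
    obtain ⟨L₀, hL₀⟩ := Filter.eventually_atTop.mp hev
    refine ⟨max 4 (⌈(2 : ℝ) ^ L₀⌉₊), fun A hA => ?_⟩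
    have hA4 : 4 ≤ A.card := le_trans (le_max_left _ _) hA
    have hApos : (0 : ℝ) < A.card := by
      have : 0 < A.card := by omega
      exact_mod_cast this
    have hL : L₀ ≤ Real.logb 2 A.card := by
      rw [Real.le_logb_iff_rpow_le (by norm_num) hApos]
      calc (2 : ℝ) ^ L₀ ≤ (⌈(2 : ℝ) ^ L₀⌉₊ : ℝ) := Nat.le_ceil _
        _ ≤ A.card := by exact_mod_cast le_trans (le_max_right _ _) hA
    obtain ⟨B, hB, hBc, hBd⟩ := h3 A hA4
    refine ⟨B, hB, ?_, hBd⟩
    have h1 : Real.logb 2 A.card < Nat.log 2 A.card + 1 := by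
      rw [Real.logb_lt_iff_lt_rpow (by norm_num) hApos]
      have := Nat.lt_pow_succ_log_self (b := 2) (by norm_num) A.card
      have h2 : (2 : ℝ) ^ ((Nat.log 2 A.card : ℝ) + 1) = ((2 ^ (Nat.log 2 A.card + 1) : ℕ) : ℝ) := by
        push_cast
        rw [← Real.rpow_natCast]
        push_cast
        rfl
      rw [h2]
      exact_mod_cast this
    have hk : 2 ≤ Nat.log 2 A.card := by
      rw [Nat.le_log_iff_pow_le (by norm_num) (by omega)]
      exact hA4
    have h2 : (Nat.log 2 A.card : ℝ) ≤ Real.logb 2 A.card := by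
      rw [Real.le_logb_iff_rpow_le (by norm_num) hApos, Real.rpow_natCast]
      exact_mod_cast Nat.pow_log_le_self 2 (by omega)
    have h4 : (Nat.log 2 (Nat.log 2 A.card) : ℝ) ≤ Real.logb 2 (Real.logb 2 A.card) := by
      have hkpos : (0 : ℝ) < Nat.log 2 A.card := by
        have : 0 < Nat.log 2 A.card := by omega
        exact_mod_cast this
      rw [Real.le_logb_iff_rpow_le (by norm_num) (by linarith), Real.rpow_natCast]
      refine le_trans ?_ h2
      exact_mod_cast Nat.pow_log_le_self 2 (by omega)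
    have h5 := hL₀ _ hL
    have h6 : (Nat.log 2 A.card : ℝ) + 1 ≤ B.card + Nat.log 2 (Nat.log 2 A.card) := by
      exact_mod_cast hBc
    nlinarith

end Pool.Agent.Results.MP_2d6ea7_co.LogTwoAsymp
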